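import Pool.Agent.L5helper98.ID.Defs

/-!
# Moments of the mass in `[0,∞]` (MP_6ad96e_pr, piece TON)
-/

set_option autoImplicit false

open MeasureTheory ProbabilityTheory Filter Topology Set
open scoped ENNReal BoundedContinuousFunction

namespace Pool.Agent.L5helper56.ID

open Pool.Agent.L5helper98.ID

variable {Ω : Type} [MeasurableSpace Ω]

theorem meas_F {ω : ℝ → Ω → ℝ} (hω : Measurable (fun p : ℝ × Ω => ω p.1 p.2)) :
    Measurable (fun p : ℝ × Ω => ENNReal.ofReal (Real.exp (ω p.1 p.2))) :=
  (Real.measurable_exp.comp hω).ennreal_ofReal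

theorem meas_L {ω : ℝ → Ω → ℝ} (hω : Measurable (fun p : ℝ × Ω => ω p.1 p.2)) :
    Measurable fun o => ∫⁻ u in D, ENNReal.ofReal (Real.exp (ω u o)) :=
  Measurable.lintegral_prod_left' (meas_F hω)

theorem step (P : Measure Ω) [IsProbabilityMeasure P] {ω : ℝ → Ω → ℝ}
    (hω : Measurable (fun p : ℝ × Ω => ω p.1 p.2)) {A : Ω → ℝ≥0∞} (hA : Measurable A) (n : ℕ) :
    ∫⁻ o, A o * (∫⁻ u in D, ENNReal.ofReal (Real.exp (ω u o))) ^ (n + 1) ∂P =
      ∫⁻ x in D, ∫⁻ o, (A o * ENNReal.ofReal (Real.exp (ω x o))) *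
        (∫⁻ u in D, ENNReal.ofReal (Real.exp (ω u o))) ^ n ∂P := by
  have hL := meas_L hω
  have h1 : ∀ o, A o * (∫⁻ u in D, ENNReal.ofReal (Real.exp (ω u o))) ^ (n + 1) =
      ∫⁻ x in D, (A o * ENNReal.ofReal (Real.exp (ω x o))) *
        (∫⁻ u in D, ENNReal.ofReal (Real.exp (ω u o))) ^ n := by
    intro o
    have hm : Measurable fun x => ENNReal.ofReal (Real.exp (ω x o)) :=
      (meas_F hω).comp (measurable_id.prodMk measurable_const)
    rw [lintegral_mul_const _ (hm.const_mul _), lintegral_const_mul _ hm]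
    ring
  simp_rw [h1]
  refine lintegral_lintegral_swap (Measurable.aemeasurable ?_)
  exact ((hA.comp measurable_fst).mul ((meas_F hω).comp measurable_swap)).mul
    ((hL.comp measurable_fst).pow_const n)

theorem ofReal_exp_add (a b : ℝ) : ENNReal.ofReal (Real.exp a) * ENNReal.ofReal (Real.exp b) =
    ENNReal.ofReal (Real.exp (a + b)) := by
  rw [← ENNReal.ofReal_mul (Real.exp_pos _).le, Real.exp_add]

theorem TON_holds (hMGF : St_MGF) : St_TON := by
  intro G μ Ω _ P _ ω hG hGm hf
  have hω := hf.meas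
  have hF : ∀ x, Measurable fun o => ENNReal.ofReal (Real.exp (ω x o)) := fun x =>
    (meas_F hω).comp (measurable_const.prodMk measurable_id)
  have m1 : ∀ x, ∫⁻ o, ENNReal.ofReal (Real.exp (ω x o)) ∂P = 1 := by
    intro x
    have h := hMGF G μ Ω P ω hG hf 1 ![x]
    simpa [Finset.sum_filter] using h
  have m2 : ∀ x y, ∫⁻ o, ENNReal.ofReal (Real.exp (ω x o)) * ENNReal.ofReal (Real.exp (ω y o)) ∂P =
      ee (fun t => μ * G t) x y := by
    intro x y
    have h := hMGF G μ Ω P ω hG hf 2 ![x, y]
    simp only [Finset.sum_filter, Fin.sum_univ_two, Matrix.cons_val_zero, Matrix.cons_val_one] at h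
    simp_rw [ofReal_exp_add]
    rw [h]
    simp [ee]
  have m3 : ∀ x y z, ∫⁻ o, ENNReal.ofReal (Real.exp (ω x o)) * ENNReal.ofReal (Real.exp (ω y o)) *
      ENNReal.ofReal (Real.exp (ω z o)) ∂P =
      ee (fun t => μ * G t) x y * ee (fun t => μ * G t) x z * ee (fun t => μ * G t) y z := by
    intro x y z
    have h := hMGF G μ Ω P ω hG hf 3 ![x, y, z]
    simp only [Finset.sum_filter, Fin.sum_univ_three, Matrix.cons_val_zero, Matrix.cons_val_one,
      Matrix.cons_val] at h
    simp_rw [ofReal_exp_add]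
    rw [h]
    unfold ee
    simp_rw [ofReal_exp_add]
    congr 2
    simp
  have m4 : ∀ x y z w, ∫⁻ o, ENNReal.ofReal (Real.exp (ω x o)) * ENNReal.ofReal (Real.exp (ω y o)) *
      ENNReal.ofReal (Real.exp (ω z o)) * ENNReal.ofReal (Real.exp (ω w o)) ∂P =
      ee (fun t => μ * G t) x y * ee (fun t => μ * G t) x z * ee (fun t => μ * G t) x w *
      ee (fun t => μ * G t) y z * ee (fun t => μ * G t) y w * ee (fun t => μ * G t) z w := by
    intro x y z w
    have h := hMGF G μ Ω P ω hG hf 4 ![x, y, z, w]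
    simp only [Finset.sum_filter, Fin.sum_univ_four, Matrix.cons_val_zero, Matrix.cons_val_one,
      Matrix.cons_val] at h
    simp_rw [ofReal_exp_add]
    rw [h]
    unfold ee
    simp_rw [ofReal_exp_add]
    congr 2
    simp
    ring
  have s1 := step P hω (A := fun _ => 1) measurable_const
  refine ⟨?_, ?_, ?_, ?_⟩
  · have h := s1 0
    simp only [one_mul, pow_zero, mul_one, zero_add, pow_one, m1] at h
    rw [h, lintegral_const, Measure.restrict_apply_univ, one_mul]
    unfold D
    rw [Real.volume_Ioo]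
    congr 1
    ring
  · have h := s1 1
    simp only [one_mul] at h
    refine h.trans (lintegral_congr fun x => ?_)
    have h2 := step P hω (A := fun o => ENNReal.ofReal (Real.exp (ω x o))) (hF x) 0
    simp only [pow_zero, mul_one, zero_add] at h2
    exact h2.trans (lintegral_congr fun y => m2 x y)
  · have h := s1 2
    simp only [one_mul] at h
    refine h.trans (lintegral_congr fun x => ?_)
    refine (step P hω (A := fun o => ENNReal.ofReal (Real.exp (ω x o))) (hF x) 1).trans ?_
    refine lintegral_congr fun y => ?_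
    have h2 := step P hω (A := fun o => ENNReal.ofReal (Real.exp (ω x o)) *
      ENNReal.ofReal (Real.exp (ω y o))) ((hF x).mul (hF y)) 0
    simp only [pow_zero, mul_one, zero_add] at h2
    exact h2.trans (lintegral_congr fun z => m3 x y z)
  · have h := s1 3
    simp only [one_mul] at h
    refine h.trans (lintegral_congr fun x => ?_)
    refine (step P hω (A := fun o => ENNReal.ofReal (Real.exp (ω x o))) (hF x) 2).trans ?_
    refine lintegral_congr fun y => ?_
    refine (step P hω (A := fun o => ENNReal.ofReal (Real.exp (ω x o)) *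
      ENNReal.ofReal (Real.exp (ω y o))) ((hF x).mul (hF y)) 1).trans ?_
    refine lintegral_congr fun z => ?_
    have h2 := step P hω (A := fun o => ENNReal.ofReal (Real.exp (ω x o)) *
      ENNReal.ofReal (Real.exp (ω y o)) * ENNReal.ofReal (Real.exp (ω z o)))
      (((hF x).mul (hF y)).mul (hF z)) 0
    simp only [pow_zero, mul_one, zero_add] at h2
    exact h2.trans (lintegral_congr fun w => m4 x y z w)

end Pool.Agent.L5helper56.ID
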